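import Pool.Agent.BEQ.Stmts

set_option autoImplicit false

/-!
# BEQ, row QFO: the quadratic form of a diagonal operator
-/

namespace Pool.Agent.BEQ.H1

open Set Filter Topology MeasureTheory
open scoped InnerProductSpace ENNReal

section

variable {H : Type} [NormedAddCommGroup H] [InnerProductSpace ℝ H] [CompleteSpace H]

theorem exists_sum {v : ℕ → H} (hv : Orthonormal ℝ v) (h : H) :
    ∃ y, HasSum (fun k => ⟪v k, h⟫_ℝ • v k) y := by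
  have h1 : Summable (fun k => ‖⟪v k, h⟫_ℝ‖ ^ 2) := hv.inner_products_summable h
  have h2 := (hv.orthogonalFamily.summable_iff_norm_sq_summable (fun k => ⟪v k, h⟫_ℝ)).2 h1
  have h3 : Summable (fun k => ⟪v k, h⟫_ℝ • v k) := h2
  exact ⟨_, h3.hasSum⟩

omit [CompleteSpace H] in
theorem inner_hasSum {c : ℕ → ℝ} {v : ℕ → H} {y : H} (hy : HasSum (fun k => c k • v k) y)
    (z : H) : HasSum (fun k => c k * ⟪z, v k⟫_ℝ) ⟪z, y⟫_ℝ := by
  have h := (innerSL ℝ z).hasSum hy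
  simp only [innerSL_apply_apply, real_inner_smul_right] at h
  exact h

theorem coef {v : ℕ → H} (hv : Orthonormal ℝ v) {c : ℕ → ℝ} {y : H}
    (hy : HasSum (fun k => c k • v k) y) (j : ℕ) : ⟪v j, y⟫_ℝ = c j := by
  have h1 := inner_hasSum hy (v j)
  have h2 : HasSum (fun k => c k * ⟪v j, v k⟫_ℝ) (c j * ⟪v j, v j⟫_ℝ) := by
    apply hasSum_single
    intro k hk
    rw [hv.2 hk.symm, mul_zero]
  have h3 := h1.unique h2
  rw [h3, real_inner_self_eq_norm_sq, hv.1 j]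
  ring

theorem proj {v : ℕ → H} (hv : Orthonormal ℝ v) {h y : H}
    (hy : HasSum (fun k => ⟪v k, h⟫_ℝ • v k) y) :
    (∀ j, ⟪v j, h - y⟫_ℝ = 0) ∧ HasSum (fun k => ⟪v k, h⟫_ℝ ^ 2) (‖h‖ ^ 2 - ‖h - y‖ ^ 2) := by
  have h1 : ∀ j, ⟪v j, h - y⟫_ℝ = 0 := by
    intro j
    rw [inner_sub_right, coef hv hy j, sub_self]
  refine ⟨h1, ?_⟩
  have h2 := inner_hasSum hy y
  have h3 : (fun k => ⟪v k, h⟫_ℝ * ⟪y, v k⟫_ℝ) = fun k => ⟪v k, h⟫_ℝ ^ 2 := by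
    funext k
    rw [real_inner_comm (v k) y, coef hv hy k]
    ring
  rw [h3] at h2
  have h4 : ⟪h - y, y⟫_ℝ = 0 := by
    have h5 := inner_hasSum hy (h - y)
    have h6 : (fun k => ⟪v k, h⟫_ℝ * ⟪h - y, v k⟫_ℝ) = fun _ => (0 : ℝ) := by
      funext k
      rw [real_inner_comm (v k) (h - y), h1 k, mul_zero]
    rw [h6] at h5
    exact h5.unique hasSum_zero
  have h7 : ⟪y, y⟫_ℝ = ‖h‖ ^ 2 - ‖h - y‖ ^ 2 := by
    have h8 : h = (h - y) + y := by abel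
    have h9 : ‖h‖ ^ 2 = ‖h - y‖ ^ 2 + 2 * ⟪h - y, y⟫_ℝ + ‖y‖ ^ 2 := by
      have := norm_add_sq_real (h - y) y
      rw [← h8] at this
      exact this
    rw [h9, h4, real_inner_self_eq_norm_sq]
    ring
  rw [← h7]
  exact h2

theorem qfo_aux (T : H →L[ℝ] H) (v : ℕ → H) (μ : ℕ → ℝ) (hT : Dg T v μ) :
    (∀ h k, ⟪T h, k⟫_ℝ = ⟪h, T k⟫_ℝ) ∧
    (∀ h, HasSum (fun k => μ k * ⟪v k, h⟫_ℝ ^ 2) ⟪T h, h⟫_ℝ) ∧
    (∀ h, 0 ≤ ⟪T h, h⟫_ℝ ∧ ⟪T h, h⟫_ℝ ≤ μ 0 * ‖h‖ ^ 2) ∧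
    ∀ (h : H) (m : ℝ), ∃ r : ℝ, 0 ≤ r ∧ HasSum (fun k => ⟪v k, h⟫_ℝ ^ 2) (‖h‖ ^ 2 - r) ∧
      HasSum (fun k => (m - μ k) ^ 2 * ⟪v k, h⟫_ℝ ^ 2) (‖m • h - T h‖ ^ 2 - m ^ 2 * r) := by
  have hTh : ∀ h y, HasSum (fun k => ⟪v k, h⟫_ℝ • v k) y →
      HasSum (fun k => (μ k * ⟪v k, h⟫_ℝ) • v k) (T h) := by
    intro h y hy
    have h1 := T.hasSum hy
    have h2 : T (h - y) = 0 := hT.zero _ (proj hT.on hy).1
    have h3 : T y = T h := by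
      rw [map_sub, sub_eq_zero] at h2
      exact h2.symm
    rw [h3] at h1
    have h4 : (fun k => (μ k * ⟪v k, h⟫_ℝ) • v k) = T ∘ (fun k => ⟪v k, h⟫_ℝ • v k) := by
      funext k
      simp only [Function.comp_apply]
      rw [map_smul, hT.ev k, smul_smul, mul_comm]
    rw [h4]
    exact h1
  have hform : ∀ h k, HasSum (fun j => μ j * ⟪v j, h⟫_ℝ * ⟪v j, k⟫_ℝ) ⟪T h, k⟫_ℝ := by
    intro h k
    obtain ⟨y, hy⟩ := exists_sum hT.on h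
    have h1 := inner_hasSum (hTh h y hy) k
    rw [real_inner_comm] at h1
    have h2 : (fun j => μ j * ⟪v j, h⟫_ℝ * ⟪v j, k⟫_ℝ) =
        fun j => μ j * ⟪v j, h⟫_ℝ * ⟪k, v j⟫_ℝ := by
      funext j
      rw [real_inner_comm k (v j)]
    rw [h2]
    exact h1
  have hsymm : ∀ h k, ⟪T h, k⟫_ℝ = ⟪h, T k⟫_ℝ := by
    intro h k
    have h1 := hform h k
    have h2 := hform k h
    have h3 : (fun j => μ j * ⟪v j, k⟫_ℝ * ⟪v j, h⟫_ℝ) =
        fun j => μ j * ⟪v j, h⟫_ℝ * ⟪v j, k⟫_ℝ := by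
      funext j; ring
    rw [h3] at h2
    rw [h1.unique h2, real_inner_comm]
  have hsq : ∀ h, HasSum (fun k => μ k * ⟪v k, h⟫_ℝ ^ 2) ⟪T h, h⟫_ℝ := by
    intro h
    have h1 := hform h h
    have h3 : (fun j => μ j * ⟪v j, h⟫_ℝ * ⟪v j, h⟫_ℝ) = fun k => μ k * ⟪v k, h⟫_ℝ ^ 2 := by
      funext j; ring
    rw [h3] at h1
    exact h1
  refine ⟨hsymm, hsq, ?_, ?_⟩
  · intro h
    refine ⟨(hsq h).nonneg fun k => mul_nonneg (hT.pos k).le (sq_nonneg _), ?_⟩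
    obtain ⟨y, hy⟩ := exists_sum hT.on h
    have h1 := (proj hT.on hy).2.mul_left (μ 0)
    have h2 : ⟪T h, h⟫_ℝ ≤ μ 0 * (‖h‖ ^ 2 - ‖h - y‖ ^ 2) :=
      hasSum_le (fun k => mul_le_mul_of_nonneg_right (hT.anti (Nat.zero_le k)) (sq_nonneg _))
        (hsq h) h1
    have h3 : 0 ≤ μ 0 * ‖h - y‖ ^ 2 := mul_nonneg (hT.pos 0).le (sq_nonneg _)
    rw [mul_sub] at h2
    linarith
  · intro h m
    obtain ⟨y, hy⟩ := exists_sum hT.on h
    refine ⟨‖h - y‖ ^ 2, sq_nonneg _, (proj hT.on hy).2, ?_⟩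
    have hc : ∀ k, ⟪v k, m • h - T h⟫_ℝ = (m - μ k) * ⟪v k, h⟫_ℝ := by
      intro k
      rw [inner_sub_right, real_inner_smul_right, ← hsymm, hT.ev k, real_inner_smul_left]
      ring
    have hg : HasSum (fun k => ⟪v k, m • h - T h⟫_ℝ • v k) (m • y - T h) := by
      have h1 := (hy.const_smul m).sub (hTh h y hy)
      have h2 : (fun k => ⟪v k, m • h - T h⟫_ℝ • v k) =
          fun k => m • ⟪v k, h⟫_ℝ • v k - (μ k * ⟪v k, h⟫_ℝ) • v k := by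
        funext k
        rw [hc k, smul_smul, ← sub_smul]
        congr 1
        ring
      rw [h2]
      exact h1
    have h3 := (proj hT.on hg).2
    have h4 : m • h - T h - (m • y - T h) = m • (h - y) := by
      rw [smul_sub]; abel
    rw [h4, norm_smul, mul_pow, Real.norm_eq_abs, sq_abs] at h3
    have h5 : (fun k => (m - μ k) ^ 2 * ⟪v k, h⟫_ℝ ^ 2) = fun k => ⟪v k, m • h - T h⟫_ℝ ^ 2 := by
      funext k
      rw [hc k, mul_pow]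
    rw [h5]
    exact h3

end

theorem qfo : QfoStmt := fun _ _ _ _ T v μ hT => qfo_aux T v μ hT

end Pool.Agent.BEQ.H1
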